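import Pool.Agent.Lib.MP_a8c702_nt.BS.Bas

/-! Few bad pairs. -/

namespace Pool.Agent.Lib.MP_a8c702_nt.BS

open Finset

theorem fibG {α β : Type} [DecidableEq α] [DecidableEq β] (P : Finset (α × β)) (X : Finset α)
    (m : ℕ) (h1 : ∀ p ∈ P, p.1 ∈ X)
    (h2 : ∀ x ∈ X, ∃ F : Finset β, F.card ≤ m ∧ ∀ y, (x, y) ∈ P → y ∈ F) :
    P.card ≤ m * X.card := by
  refine card_le_mul_card_image_of_maps_to (f := fun p => p.1) h1 m (fun x hx => ?_)
  obtain ⟨F, hF, h⟩ := h2 x hx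
  refine le_trans (card_le_card_of_injOn (fun p => p.2) (fun p hp => ?_) ?_) hF
  · have hp' := mem_filter.1 hp
    apply h
    rw [← hp'.2]
    exact hp'.1
  · intro p hp q hq e
    have a := (mem_filter.1 hp).2
    have b := (mem_filter.1 hq).2
    exact Prod.ext (a.trans b.symm) e

/-- second entries of the representations of an unpopular difference -/
def DS (A : Finset ℤ) (y : ℤ) : Finset ℤ :=
  if dR A y ≤ 8 then ((A ×ˢ A).filter (fun p => p.1 - p.2 = y)).image (fun p => p.2) else ∅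

/-- second entries of the representations of an unpopular sum -/
def SS (A : Finset ℤ) (y : ℤ) : Finset ℤ :=
  if sR A y ≤ 8 then ((A ×ˢ A).filter (fun p => p.1 + p.2 = y ∧ p.1 ≠ p.2)).image (fun p => p.2)
  else ∅

theorem card_DS (A : Finset ℤ) (y : ℤ) : (DS A y).card ≤ 8 := by
  unfold DS
  split_ifs with h
  · exact card_image_le.trans h
  · simp

theorem card_SS (A : Finset ℤ) (y : ℤ) : (SS A y).card ≤ 8 := by
  unfold SS
  split_ifs with h
  · exact card_image_le.trans h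
  · simp

theorem mem_DS {A : Finset ℤ} {y p q : ℤ} (hp : p ∈ A) (hq : q ∈ A) (e : p - q = y)
    (h : dR A y ≤ 8) : q ∈ DS A y := by
  unfold DS
  rw [if_pos h]
  exact mem_image.2 ⟨(p, q), mem_filter.2 ⟨mem_product.2 ⟨hp, hq⟩, e⟩, rfl⟩

theorem mem_SS {A : Finset ℤ} {y p q : ℤ} (hp : p ∈ A) (hq : q ∈ A) (e : p + q = y) (hne : p ≠ q)
    (h : sR A y ≤ 8) : q ∈ SS A y := by
  unfold SS
  rw [if_pos h]
  exact mem_image.2 ⟨(p, q), mem_filter.2 ⟨mem_product.2 ⟨hp, hq⟩, e, hne⟩, rfl⟩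

/-- the difference `b - c` has a second representation that is not explained by partners -/
def Bad (A : Finset ℤ) (b c : ℤ) : Prop :=
  b ≠ c ∧ ∃ b' ∈ A, ∃ c' ∈ A, b' ≠ b ∧ b - c = b' - c' ∧ dR A (b' - b) ≤ 8 ∧ sR A (b + c') ≤ 8

open Classical in
/-- the bad pairs -/
noncomputable def BadS (A : Finset ℤ) : Finset (ℤ × ℤ) :=
  (A ×ˢ A).filter (fun p => Bad A p.1 p.2)

theorem mem_BadS {A : Finset ℤ} {b c : ℤ} : (b, c) ∈ BadS A ↔ b ∈ A ∧ c ∈ A ∧ Bad A b c := by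
  unfold BadS
  simp only [mem_filter, mem_product, and_assoc]

/-- bad with a witness whose first entry is not `c` -/
def Bad2 (A : Finset ℤ) (b c : ℤ) : Prop :=
  b ≠ c ∧ ∃ b' ∈ A, ∃ c' ∈ A, b' ≠ b ∧ b' ≠ c ∧ b - c = b' - c' ∧ dR A (b' - b) ≤ 8 ∧
    sR A (b + c') ≤ 8

theorem fib_Bad2 {A : Finset ℤ} (hA : Star A) (b : ℤ) :
    ∃ F : Finset ℤ, F.card ≤ 51 ∧ ∀ c ∈ A, Bad2 A b c → c ∈ F := by
  by_cases h : ∃ c ∈ A, Bad2 A b c
  · obtain ⟨c1, hc1, n1, b1, hb1, f1, hf1, m1, k1, e1, _, _⟩ := h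
    refine ⟨{f1, c1, b1} ∪ (DS A (f1 - b) ∪ DS A (c1 - b) ∪ DS A (b1 - b)) ∪
      (SS A (b + f1) ∪ SS A (b + c1) ∪ SS A (b + b1)), ?_, ?_⟩
    · have a0 : ({f1, c1, b1} : Finset ℤ).card ≤ 3 := card_le_three
      have a1 := card_DS A (f1 - b)
      have a2 := card_DS A (c1 - b)
      have a3 := card_DS A (b1 - b)
      have a4 := card_SS A (b + f1)
      have a5 := card_SS A (b + c1)
      have a6 := card_SS A (b + b1)
      have u1 := card_union_le (DS A (f1 - b)) (DS A (c1 - b))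
      have u2 := card_union_le (DS A (f1 - b) ∪ DS A (c1 - b)) (DS A (b1 - b))
      have u3 := card_union_le (SS A (b + f1)) (SS A (b + c1))
      have u4 := card_union_le (SS A (b + f1) ∪ SS A (b + c1)) (SS A (b + b1))
      have u5 := card_union_le ({f1, c1, b1} : Finset ℤ)
        (DS A (f1 - b) ∪ DS A (c1 - b) ∪ DS A (b1 - b))
      have u6 := card_union_le (({f1, c1, b1} : Finset ℤ) ∪
        (DS A (f1 - b) ∪ DS A (c1 - b) ∪ DS A (b1 - b)))
        (SS A (b + f1) ∪ SS A (b + c1) ∪ SS A (b + b1))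
      omega
    · rintro c2 hc2 ⟨n2, b2, hb2, f2, hf2, m2, k2, e2, d2, s2⟩
      have hD : c2 ∈ DS A (b2 - b) := mem_DS hf2 hc2 (by omega) d2
      have hS : c2 ∈ SS A (b + f2) := mem_SS hb2 hc2 (by omega) k2 s2
      have key : c2 = f1 ∨ c2 = c1 ∨ c2 = b1 ∨ b2 = f1 ∨ b2 = c1 ∨ b2 = b1 ∨ f2 = f1 ∨ f2 = c1 ∨
          f2 = b1 := by
        have := hA c1 hc1 b1 hb1 f2 hf2 c2 hc2 b2 hb2 f1 hf1 (by omega)
        omega
      simp only [mem_union, mem_insert, mem_singleton]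
      rcases key with h | h | h | h | h | h | h | h | h
      · exact Or.inl (Or.inl (Or.inl h))
      · exact Or.inl (Or.inl (Or.inr (Or.inl h)))
      · exact Or.inl (Or.inl (Or.inr (Or.inr h)))
      · exact Or.inl (Or.inr (Or.inl (Or.inl (h ▸ hD))))
      · exact Or.inl (Or.inr (Or.inl (Or.inr (h ▸ hD))))
      · exact Or.inl (Or.inr (Or.inr (h ▸ hD)))
      · exact Or.inr (Or.inl (Or.inl (h ▸ hS)))
      · exact Or.inr (Or.inl (Or.inr (h ▸ hS)))
      · exact Or.inr (Or.inr (h ▸ hS))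
  · exact ⟨∅, by simp, fun c hc hb => absurd ⟨c, hc, hb⟩ h⟩

open Classical in
/-- pairs with a witness of the second kind -/
noncomputable def Bad2S (A : Finset ℤ) : Finset (ℤ × ℤ) :=
  (A ×ˢ A).filter (fun p => Bad2 A p.1 p.2)

theorem mem_Bad2S {A : Finset ℤ} {b c : ℤ} : (b, c) ∈ Bad2S A ↔ b ∈ A ∧ c ∈ A ∧ Bad2 A b c := by
  unfold Bad2S
  simp only [mem_filter, mem_product, and_assoc]

theorem card_Bad2S {A : Finset ℤ} (hA : Star A) : (Bad2S A).card ≤ 51 * A.card := by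
  refine fibG _ A 51 (fun p hp => ?_) (fun x _ => ?_)
  · obtain ⟨b, c⟩ := p
    exact (mem_Bad2S.1 hp).1
  · obtain ⟨F, hF, h⟩ := fib_Bad2 hA x
    exact ⟨F, hF, fun y hy => h y (mem_Bad2S.1 hy).2.1 (mem_Bad2S.1 hy).2.2⟩

/-- pairs with a witness of the first kind -/
def Bad1S (A : Finset ℤ) : Finset (ℤ × ℤ) := (A ×ˢ A).filter (fun p => p.2 ∈ SS A (2 * p.1))

theorem mem_Bad1S {A : Finset ℤ} {b c : ℤ} :
    (b, c) ∈ Bad1S A ↔ b ∈ A ∧ c ∈ A ∧ c ∈ SS A (2 * b) := by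
  unfold Bad1S
  simp only [mem_filter, mem_product, and_assoc]

theorem card_Bad1S (A : Finset ℤ) : (Bad1S A).card ≤ 8 * A.card := by
  refine fibG _ A 8 (fun p hp => ?_) (fun x _ => ?_)
  · obtain ⟨b, c⟩ := p
    exact (mem_Bad1S.1 hp).1
  · exact ⟨SS A (2 * x), card_SS _ _, fun y hy => (mem_Bad1S.1 hy).2.2⟩

theorem card_BadS {A : Finset ℤ} (hA : Star A) : (BadS A).card ≤ 59 * A.card := by
  have hsub : BadS A ⊆ Bad2S A ∪ (Bad1S A).image Prod.swap := by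
    rintro ⟨b, c⟩ hp
    obtain ⟨hb, hc, n, b', hb', c', hc', m, e, d, s⟩ := mem_BadS.1 hp
    by_cases h : b' = c
    · have e2 : b + c' = 2 * c := by omega
      rw [e2] at s
      have h3 : b ∈ SS A (2 * c) := mem_SS hc' hb (by omega) (by omega) s
      exact mem_union_right _ (mem_image.2 ⟨(c, b), mem_Bad1S.2 ⟨hc, hb, h3⟩, rfl⟩)
    · exact mem_union_left _ (mem_Bad2S.2 ⟨hb, hc, n, b', hb', c', hc', m, h, e, d, s⟩)
  have a1 := card_Bad2S hA
  have a3 := (card_image_le (s := Bad1S A) (f := Prod.swap)).trans (card_Bad1S A)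
  have := (card_le_card hsub).trans (card_union_le _ _)
  omega

/-- `(a, b)` is one side of an unexplained additive quadruple -/
def SumX (A : Finset ℤ) (a b : ℤ) : Prop := ∃ a' ∈ A, Bad A a a' ∧ b ∈ DS A (a - a')

open Classical in
/-- exceptional pairs -/
noncomputable def Ex (A : Finset ℤ) : Finset (ℤ × ℤ) :=
  (A ×ˢ A).filter (fun p => p.1 = p.2 ∨ p.2 = pi A p.1 ∨ Bad A p.1 p.2 ∨ SumX A p.1 p.2)

theorem mem_Ex {A : Finset ℤ} {a b : ℤ} (ha : a ∈ A) (hb : b ∈ A) :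
    (a, b) ∈ Ex A ↔ a = b ∨ b = pi A a ∨ Bad A a b ∨ SumX A a b := by
  unfold Ex
  simp only [mem_filter, mem_product, ha, hb, true_and]

theorem Ex_sub {A : Finset ℤ} {a b : ℤ} (h : (a, b) ∈ Ex A) : a ∈ A ∧ b ∈ A := by
  unfold Ex at h
  simp only [mem_filter, mem_product] at h
  exact h.1

/-- diagonal and partner pairs -/
noncomputable def P1 (A : Finset ℤ) : Finset (ℤ × ℤ) :=
  (A ×ˢ A).filter (fun p => p.2 = p.1 ∨ p.2 = pi A p.1)

theorem mem_P1 {A : Finset ℤ} {b c : ℤ} :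
    (b, c) ∈ P1 A ↔ b ∈ A ∧ c ∈ A ∧ (c = b ∨ c = pi A b) := by
  unfold P1
  simp only [mem_filter, mem_product, and_assoc]

theorem card_P1 (A : Finset ℤ) : (P1 A).card ≤ 2 * A.card := by
  refine fibG _ A 2 (fun p hp => ?_) (fun x _ => ?_)
  · obtain ⟨b, c⟩ := p
    exact (mem_P1.1 hp).1
  · refine ⟨{x, pi A x}, card_le_two, fun y hy => ?_⟩
    rw [mem_insert, mem_singleton]
    exact (mem_P1.1 hy).2.2

/-- bad pairs together with an entry of a representation of the difference -/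
noncomputable def P2 (A : Finset ℤ) : Finset ((ℤ × ℤ) × ℤ) :=
  (BadS A ×ˢ A).filter (fun p => p.2 ∈ DS A (p.1.1 - p.1.2))

theorem mem_P2 {A : Finset ℤ} {x : ℤ × ℤ} {c : ℤ} :
    (x, c) ∈ P2 A ↔ x ∈ BadS A ∧ c ∈ A ∧ c ∈ DS A (x.1 - x.2) := by
  unfold P2
  simp only [mem_filter, mem_product, and_assoc]

theorem card_P2 (A : Finset ℤ) : (P2 A).card ≤ 8 * (BadS A).card := by
  refine fibG _ (BadS A) 8 (fun p hp => ?_) (fun x _ => ?_)
  · obtain ⟨b, c⟩ := p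
    exact (mem_P2.1 hp).1
  · exact ⟨DS A (x.1 - x.2), card_DS _ _, fun y hy => (mem_P2.1 hy).2.2⟩

theorem card_Ex {A : Finset ℤ} (hA : Star A) : (Ex A).card ≤ 533 * A.card := by
  have hsub : Ex A ⊆ P1 A ∪ BadS A ∪ (P2 A).image (fun p => (p.1.1, p.2)) := by
    rintro ⟨a, b⟩ hp
    obtain ⟨ha, hb⟩ := Ex_sub hp
    rcases (mem_Ex ha hb).1 hp with h | h | h | ⟨a', ha', h, h'⟩
    · exact mem_union_left _ (mem_union_left _ (mem_P1.2 ⟨ha, hb, Or.inl h.symm⟩))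
    · exact mem_union_left _ (mem_union_left _ (mem_P1.2 ⟨ha, hb, Or.inr h⟩))
    · exact mem_union_left _ (mem_union_right _ (mem_BadS.2 ⟨ha, hb, h⟩))
    · exact mem_union_right _ (mem_image.2 ⟨((a, a'), b),
        mem_P2.2 ⟨mem_BadS.2 ⟨ha, ha', h⟩, hb, h'⟩, rfl⟩)
  have a1 := card_P1 A
  have a3 := (card_image_le (s := P2 A) (f := fun p => (p.1.1, p.2))).trans (card_P2 A)
  have a4 := card_BadS hA
  have a5 := (card_le_card hsub).trans (card_union_le _ _)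
  have a6 := card_union_le (P1 A) (BadS A)
  omega

end Pool.Agent.Lib.MP_a8c702_nt.BS
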