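import Mathlib

/-! Sets without `a+b+c=d+e+f` in six distinct elements: popular partners. -/

namespace Pool.Agent.Lib.MP_a8c702_nt.BS

open Finset

/-- ordered representations of `y` as a difference -/
def dR (A : Finset ℤ) (y : ℤ) : ℕ := ((A ×ˢ A).filter (fun p => p.1 - p.2 = y)).card

/-- ordered representations of `y` as a sum of two different elements -/
def sR (A : Finset ℤ) (y : ℤ) : ℕ :=
  ((A ×ˢ A).filter (fun p => p.1 + p.2 = y ∧ p.1 ≠ p.2)).card

/-- no solution in six distinct elements -/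
def Star (A : Finset ℤ) : Prop :=
  ∀ a ∈ A, ∀ b ∈ A, ∀ c ∈ A, ∀ d ∈ A, ∀ e ∈ A, ∀ f ∈ A, a + b + c = d + e + f →
    a = b ∨ a = c ∨ b = c ∨ d = e ∨ d = f ∨ e = f ∨ a = d ∨ a = e ∨ a = f ∨ b = d ∨ b = e ∨
      b = f ∨ c = d ∨ c = e ∨ c = f

theorem pick (P : Finset (ℤ × ℤ)) (S : Finset ℤ) (hS : S.card ≤ 4) (hP : 8 < P.card)
    (h1 : ∀ p ∈ P, ∀ q ∈ P, p.1 = q.1 → p = q) (h2 : ∀ p ∈ P, ∀ q ∈ P, p.2 = q.2 → p = q) :
    ∃ p ∈ P, p.1 ∉ S ∧ p.2 ∉ S := by
  by_contra hc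
  push Not at hc
  have hsub : P ⊆ P.filter (fun p => p.1 ∈ S) ∪ P.filter (fun p => p.2 ∈ S) := by
    intro p hp
    by_cases h : p.1 ∈ S
    · exact mem_union_left _ (mem_filter.2 ⟨hp, h⟩)
    · exact mem_union_right _ (mem_filter.2 ⟨hp, hc p hp h⟩)
  have a1 : (P.filter (fun p => p.1 ∈ S)).card ≤ S.card :=
    card_le_card_of_injOn (fun p => p.1) (fun p hp => (mem_filter.1 hp).2)
      (fun p hp q hq h => h1 p (mem_filter.1 hp).1 q (mem_filter.1 hq).1 h)
  have a2 : (P.filter (fun p => p.2 ∈ S)).card ≤ S.card :=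
    card_le_card_of_injOn (fun p => p.2) (fun p hp => (mem_filter.1 hp).2)
      (fun p hp q hq h => h2 p (mem_filter.1 hp).1 q (mem_filter.1 hq).1 h)
  have := (card_le_card hsub).trans (card_union_le _ _)
  omega

theorem pickD {A : Finset ℤ} {y : ℤ} (h : 8 < dR A y) (s t u v : ℤ) :
    ∃ p ∈ A, ∃ q ∈ A, p - q = y ∧ p ≠ s ∧ p ≠ t ∧ p ≠ u ∧ p ≠ v ∧ q ≠ s ∧ q ≠ t ∧ q ≠ u ∧ q ≠ v := by
  obtain ⟨p, hp, h1, h2⟩ := pick _ {s, t, u, v} card_le_four h
    (fun p hp q hq e => by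
      have a := (mem_filter.1 hp).2
      have b := (mem_filter.1 hq).2
      exact Prod.ext e (by omega))
    (fun p hp q hq e => by
      have a := (mem_filter.1 hp).2
      have b := (mem_filter.1 hq).2
      exact Prod.ext (by omega) e)
  simp only [mem_insert, mem_singleton, not_or] at h1 h2
  have hp' := mem_filter.1 hp
  have hq := mem_product.1 hp'.1
  exact ⟨p.1, hq.1, p.2, hq.2, hp'.2, h1.1, h1.2.1, h1.2.2.1, h1.2.2.2, h2.1, h2.2.1, h2.2.2.1,
    h2.2.2.2⟩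

theorem pickS {A : Finset ℤ} {y : ℤ} (h : 8 < sR A y) (s t u v : ℤ) :
    ∃ p ∈ A, ∃ q ∈ A, p + q = y ∧ p ≠ q ∧ p ≠ s ∧ p ≠ t ∧ p ≠ u ∧ p ≠ v ∧ q ≠ s ∧ q ≠ t ∧ q ≠ u ∧
      q ≠ v := by
  obtain ⟨p, hp, h1, h2⟩ := pick _ {s, t, u, v} card_le_four h
    (fun p hp q hq e => by
      have a := (mem_filter.1 hp).2.1
      have b := (mem_filter.1 hq).2.1
      exact Prod.ext e (by omega))
    (fun p hp q hq e => by
      have a := (mem_filter.1 hp).2.1
      have b := (mem_filter.1 hq).2.1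
      exact Prod.ext (by omega) e)
  simp only [mem_insert, mem_singleton, not_or] at h1 h2
  have hp' := mem_filter.1 hp
  have hq := mem_product.1 hp'.1
  exact ⟨p.1, hq.1, p.2, hq.2, hp'.2.1, hp'.2.2, h1.1, h1.2.1, h1.2.2.1, h1.2.2.2, h2.1, h2.2.1,
    h2.2.2.1, h2.2.2.2⟩

/-- `u` is a partner of `a` -/
def Part (A : Finset ℤ) (a u : ℤ) : Prop :=
  u ∈ A ∧ u ≠ a ∧ (8 < dR A (u - a) ∨ 8 < sR A (u + a))

theorem uniq {A : Finset ℤ} (hA : Star A) {a u v : ℤ} (hu : Part A a u) (hv : Part A a v) :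
    u = v := by
  by_contra huv
  obtain ⟨hu, hua, h1⟩ := hu
  obtain ⟨hv, hva, h2⟩ := hv
  rcases h1 with h1 | h1 <;> rcases h2 with h2 | h2
  · obtain ⟨p, hp, q, hq, e, _⟩ := pickD h1 u v u v
    obtain ⟨p', hp', q', hq', e', _⟩ := pickD h2 u v p q
    have := hA u hu q hq p' hp' v hv p hp q' hq' (by omega)
    omega
  · obtain ⟨p, hp, q, hq, e, _⟩ := pickD h1 u v u v
    obtain ⟨p', hp', q', hq', e', _⟩ := pickS h2 u v p q
    have := hA u hu v hv q hq p' hp' q' hq' p hp (by omega)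
    omega
  · obtain ⟨p, hp, q, hq, e, _⟩ := pickD h2 u v u v
    obtain ⟨p', hp', q', hq', e', _⟩ := pickS h1 u v p q
    have := hA u hu v hv q hq p' hp' q' hq' p hp (by omega)
    omega
  · obtain ⟨p, hp, q, hq, e, _⟩ := pickS h1 u v u v
    obtain ⟨p', hp', q', hq', e', _⟩ := pickS h2 u v p q
    have := hA u hu p' hp' q' hq' v hv p hp q hq (by omega)
    omega

open Classical in
/-- the partner of `a` (or `a` itself) -/
noncomputable def pi (A : Finset ℤ) (a : ℤ) : ℤ :=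
  if h : ∃ u, Part A a u then h.choose else a

theorem pi_eq {A : Finset ℤ} (hA : Star A) {a u : ℤ} (hu : Part A a u) : pi A a = u := by
  have h : ∃ u, Part A a u := ⟨u, hu⟩
  unfold pi
  rw [dif_pos h]
  exact uniq hA h.choose_spec hu

theorem piD {A : Finset ℤ} (hA : Star A) {a u y : ℤ} (hu : u ∈ A) (hne : u ≠ a) (hy : y = u - a)
    (h : 8 < dR A y) : pi A a = u :=
  pi_eq hA ⟨hu, hne, Or.inl (hy ▸ h)⟩

theorem piS {A : Finset ℤ} (hA : Star A) {a u y : ℤ} (hu : u ∈ A) (hne : u ≠ a) (hy : y = u + a)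
    (h : 8 < sR A y) : pi A a = u :=
  pi_eq hA ⟨hu, hne, Or.inr (hy ▸ h)⟩

theorem dR_neg (A : Finset ℤ) (y : ℤ) : dR A (-y) = dR A y := by
  unfold dR
  apply card_bij (fun p _ => p.swap)
  · intro p hp
    have := mem_filter.1 hp
    have h2 := mem_product.1 this.1
    refine mem_filter.2 ⟨mem_product.2 ⟨h2.2, h2.1⟩, ?_⟩
    have := this.2
    simp only [Prod.fst_swap, Prod.snd_swap]
    omega
  · intro p _ q _ h
    exact Prod.swap_injective h
  · intro p hp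
    have := mem_filter.1 hp
    have h2 := mem_product.1 this.1
    refine ⟨p.swap, mem_filter.2 ⟨mem_product.2 ⟨h2.2, h2.1⟩, ?_⟩, rfl⟩
    have := this.2
    simp only [Prod.fst_swap, Prod.snd_swap]
    omega

theorem sum_fib {α β : Type} [DecidableEq α] (Q : Finset α) (φ : α → ℤ) (B : Finset β) (g : β → ℤ)
    (hg : ∀ u ∈ B, ∀ v ∈ B, g u = g v → u = v) :
    ∑ u ∈ B, (Q.filter (fun p => φ p = g u)).card ≤ Q.card := by
  rw [← card_biUnion]
  · exact card_le_card (fun p hp => by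
      obtain ⟨u, _, h⟩ := mem_biUnion.1 hp
      exact (mem_filter.1 h).1)
  · intro u hu v hv huv
    refine disjoint_left.2 (fun p h1 h2 => huv (hg u hu v hv ?_))
    rw [← (mem_filter.1 h1).2, ← (mem_filter.1 h2).2]

/-- pairs with a popular (or zero) difference -/
def QD (A : Finset ℤ) : Finset (ℤ × ℤ) :=
  (A ×ˢ A).filter (fun p => 8 < dR A (p.1 - p.2))

/-- pairs with a popular sum -/
def QS (A : Finset ℤ) : Finset (ℤ × ℤ) :=
  (A ×ˢ A).filter (fun p => p.1 ≠ p.2 ∧ 8 < sR A (p.1 + p.2))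

theorem card_graph (A : Finset ℤ) (P : Finset (ℤ × ℤ)) (f : ℤ → ℤ)
    (h : ∀ p ∈ P, p.2 ∈ A ∧ p.1 = f p.2) : P.card ≤ A.card :=
  card_le_card_of_injOn (fun p => p.2) (fun p hp => (h p hp).1)
    (fun p hp q hq e => by
      have e' : p.2 = q.2 := e
      exact Prod.ext (by rw [(h p hp).2, (h q hq).2, e']) e')

theorem card_QD {A : Finset ℤ} (hA : Star A) : (QD A).card ≤ 2 * A.card := by
  have hsub : QD A ⊆ (QD A).filter (fun p => p.1 = p.2) ∪ (QD A).filter (fun p => p.1 ≠ p.2) := by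
    intro p hp
    by_cases h : p.1 = p.2
    · exact mem_union_left _ (mem_filter.2 ⟨hp, h⟩)
    · exact mem_union_right _ (mem_filter.2 ⟨hp, h⟩)
  have a1 := card_graph A ((QD A).filter (fun p => p.1 = p.2)) id (fun p hp => by
    have h := mem_filter.1 hp
    exact ⟨(mem_product.1 (mem_filter.1 h.1).1).2, h.2⟩)
  have a2 := card_graph A ((QD A).filter (fun p => p.1 ≠ p.2)) (pi A) (fun p hp => by
    have h := mem_filter.1 hp
    have h1 := mem_filter.1 h.1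
    have h2 := mem_product.1 h1.1
    exact ⟨h2.2, (piD hA h2.1 h.2 rfl h1.2).symm⟩)
  have := (card_le_card hsub).trans (card_union_le _ _)
  omega

theorem card_QS {A : Finset ℤ} (hA : Star A) : (QS A).card ≤ A.card :=
  card_graph A (QS A) (pi A) (fun p hp => by
    have h1 := mem_filter.1 hp
    have h2 := mem_product.1 h1.1
    exact ⟨h2.2, (piS hA h2.1 h1.2.1 rfl h1.2.2).symm⟩)

theorem dR_le (A : Finset ℤ) (y : ℤ) :
    dR A y ≤ 8 + ((QD A).filter (fun p => p.1 - p.2 = y)).card := by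
  by_cases h : 8 < dR A y
  · refine le_trans ?_ (Nat.le_add_left _ _)
    unfold dR
    refine card_le_card (fun p hp => ?_)
    have h1 := mem_filter.1 hp
    exact mem_filter.2 ⟨mem_filter.2 ⟨h1.1, h1.2 ▸ h⟩, h1.2⟩
  · omega

theorem sR_le (A : Finset ℤ) (y : ℤ) :
    sR A y ≤ 8 + ((QS A).filter (fun p => p.1 + p.2 = y)).card := by
  by_cases h : 8 < sR A y
  · refine le_trans ?_ (Nat.le_add_left _ _)
    unfold sR
    refine card_le_card (fun p hp => ?_)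
    have h1 := mem_filter.1 hp
    exact mem_filter.2 ⟨mem_filter.2 ⟨h1.1, h1.2.2, h1.2.1 ▸ h⟩, h1.2.1⟩
  · omega

theorem sum_dR {A : Finset ℤ} (hA : Star A) (g : ℤ → ℤ)
    (hg : ∀ u ∈ A, ∀ v ∈ A, g u = g v → u = v) : ∑ u ∈ A, dR A (g u) ≤ 10 * A.card := by
  have h1 := sum_le_sum (fun u (_ : u ∈ A) => dR_le A (g u))
  rw [sum_add_distrib, sum_const, smul_eq_mul] at h1
  have h2 := sum_fib (QD A) (fun p => p.1 - p.2) A g hg
  have h3 := card_QD hA
  omega

end Pool.Agent.Lib.MP_a8c702_nt.BS
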