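import Mathlib

/-! The autoconvolution constant. -/

namespace Pool.Agent.Lib.MP_a8c702_nt.BS

open Finset

/-- additive energy of a weight on `{0, …, n - 1}` -/
def energy (n : ℕ) (w : ℕ → ℝ) : ℝ :=
  ∑ a ∈ range n, ∑ b ∈ range n, ∑ c ∈ range n, ∑ d ∈ range n,
    if a + b = c + d then w a * w b * w c * w d else 0

/-- the autoconvolution constant: infimum of `n` times the energy over probability weights -/
noncomputable def mu : ℝ :=
  sInf {x : ℝ | ∃ (n : ℕ) (w : ℕ → ℝ), (∀ a, 0 ≤ w a) ∧ ∑ a ∈ range n, w a = 1 ∧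
    x = n * energy n w}

end Pool.Agent.Lib.MP_a8c702_nt.BS
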