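import Pool.Agent.Lib.MP_a8c702_nt.BS.Bad

/-! Few triples lie in a five-term relation. -/

namespace Pool.Agent.Lib.MP_a8c702_nt.BS

open Finset

/-- pairs `(t, w)` with `φ t + w = n` -/
def Fb {α : Type} (X : Finset α) (φ : α → ℤ) (A : Finset ℤ) (n : ℤ) : Finset (α × ℤ) :=
  (X ×ˢ A).filter (fun t => φ t.1 + t.2 = n)

theorem mem_Fb {α : Type} {X : Finset α} {φ : α → ℤ} {A : Finset ℤ} {n : ℤ} {t : α} {w : ℤ} :
    (t, w) ∈ Fb X φ A n ↔ t ∈ X ∧ w ∈ A ∧ φ t + w = n := by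
  unfold Fb
  simp only [mem_filter, mem_product, and_assoc]

theorem sum_Fb {α : Type} {A : Finset ℤ} (hA : Star A) (X : Finset α) (φ : α → ℤ) :
    ∑ u ∈ A, ∑ v ∈ A, (Fb X φ A (2 * u + v)).card ≤ X.card * (10 * A.card) := by
  have h1 : ∀ u, ∑ v ∈ A, (Fb X φ A (2 * u + v)).card = ∑ t ∈ X, dR A (2 * u - φ t) := by
    intro u
    unfold Fb dR
    simp only [card_filter, sum_product]
    rw [sum_comm]
    refine sum_congr rfl (fun t _ => ?_)
    rw [sum_comm]
    refine sum_congr rfl (fun w _ => sum_congr rfl (fun v _ => ?_))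
    refine if_congr ?_ rfl rfl
    constructor <;> intro h <;> omega
  rw [sum_congr rfl (fun u _ => h1 u), sum_comm]
  calc ∑ t ∈ X, ∑ u ∈ A, dR A (2 * u - φ t) ≤ ∑ t ∈ X, 10 * A.card :=
        sum_le_sum (fun t _ => sum_dR hA (fun u => 2 * u - φ t) (fun u _ v _ h => by omega))
    _ = X.card * (10 * A.card) := by rw [sum_const, smul_eq_mul]

/-- the elements that occur in a representation of `n` as a sum of three -/
def Z (A : Finset ℤ) (n : ℤ) : Finset ℤ := A.filter (fun z => ∃ x ∈ A, ∃ y ∈ A, x + y + z = n)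

theorem mem_Z {A : Finset ℤ} {n z : ℤ} :
    z ∈ Z A n ↔ z ∈ A ∧ ∃ x ∈ A, ∃ y ∈ A, x + y + z = n := by
  unfold Z
  simp only [mem_filter]

/-- the elements that occur in a representation of `n` as a sum of three different ones -/
def ZD (A : Finset ℤ) (n : ℤ) : Finset ℤ :=
  A.filter (fun z => ∃ x ∈ A, ∃ y ∈ A, x + y + z = n ∧ x ≠ y ∧ x ≠ z ∧ y ≠ z)

theorem mem_ZD {A : Finset ℤ} {n z : ℤ} :
    z ∈ ZD A n ↔ z ∈ A ∧ ∃ x ∈ A, ∃ y ∈ A, x + y + z = n ∧ x ≠ y ∧ x ≠ z ∧ y ≠ z := by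
  unfold ZD
  simp only [mem_filter]

theorem mem_QS {A : Finset ℤ} {p q : ℤ} :
    (p, q) ∈ QS A ↔ p ∈ A ∧ q ∈ A ∧ p ≠ q ∧ 8 < sR A (p + q) := by
  unfold QS
  simp only [mem_filter, mem_product, and_assoc]

theorem card_ZD {A : Finset ℤ} (hA : Star A) (n : ℤ) :
    (ZD A n).card ≤ 27 + (Fb (QS A) (fun p => p.1 + p.2) A n).card := by
  by_cases h : ∃ z, z ∈ ZD A n
  · obtain ⟨z0, hz0⟩ := h
    obtain ⟨hz0, x0, hx0, y0, hy0, e0, n1, n2, n3⟩ := mem_ZD.1 hz0
    have hsub : ZD A n ⊆ {x0, y0, z0} ∪ (SS A (n - x0) ∪ SS A (n - y0) ∪ SS A (n - z0)) ∪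
        ((Fb (QS A) (fun p => p.1 + p.2) A n).filter
          (fun t => t.2 = x0 ∨ t.2 = y0 ∨ t.2 = z0)).image (fun t => t.1.2) := by
      intro z hz
      obtain ⟨hz, x, hx, y, hy, e, m1, m2, m3⟩ := mem_ZD.1 hz
      have key : ∀ w ∈ A, ∀ p ∈ A, w + p + z = n → p ≠ z → (w = x0 ∨ w = y0 ∨ w = z0) →
          z ∈ {x0, y0, z0} ∪ (SS A (n - x0) ∪ SS A (n - y0) ∪ SS A (n - z0)) ∪
            ((Fb (QS A) (fun p => p.1 + p.2) A n).filter
              (fun t => t.2 = x0 ∨ t.2 = y0 ∨ t.2 = z0)).image (fun t => t.1.2) := by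
        intro w hw p hp e' hne hw'
        by_cases hs : sR A (n - w) ≤ 8
        · have hS : z ∈ SS A (n - w) := mem_SS hp hz (by omega) hne hs
          refine mem_union_left _ (mem_union_right _ ?_)
          rcases hw' with h | h | h
          · exact mem_union_left _ (mem_union_left _ (h ▸ hS))
          · exact mem_union_left _ (mem_union_right _ (h ▸ hS))
          · exact mem_union_right _ (h ▸ hS)
        · refine mem_union_right _ (mem_image.2 ⟨((p, z), w), mem_filter.2 ⟨mem_Fb.2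
            ⟨mem_QS.2 ⟨hp, hz, hne, ?_⟩, hw, ?_⟩, hw'⟩, rfl⟩)
          · have : p + z = n - w := by omega
            rw [this]
            omega
          · show p + z + w = n
            omega
      have := hA x hx y hy z hz x0 hx0 y0 hy0 z0 hz0 (by omega)
      by_cases c1 : x = x0 ∨ x = y0 ∨ x = z0
      · exact key x hx y hy e m3 c1
      by_cases c2 : y = x0 ∨ y = y0 ∨ y = z0
      · exact key y hy x hx (by omega) m2 c2
      refine mem_union_left _ (mem_union_left _ ?_)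
      simp only [mem_insert, mem_singleton]
      omega
    have a0 : ({x0, y0, z0} : Finset ℤ).card ≤ 3 := card_le_three
    have a4 := card_SS A (n - x0)
    have a5 := card_SS A (n - y0)
    have a6 := card_SS A (n - z0)
    have u3 := card_union_le (SS A (n - x0)) (SS A (n - y0))
    have u4 := card_union_le (SS A (n - x0) ∪ SS A (n - y0)) (SS A (n - z0))
    have u5 := card_union_le ({x0, y0, z0} : Finset ℤ)
      (SS A (n - x0) ∪ SS A (n - y0) ∪ SS A (n - z0))
    have u6 := (card_le_card hsub).trans (card_union_le _ _)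
    have u7 := (card_image_le (s := (Fb (QS A) (fun p => p.1 + p.2) A n).filter
      (fun t => t.2 = x0 ∨ t.2 = y0 ∨ t.2 = z0)) (f := fun t => t.1.2)).trans (card_filter_le _ _)
    omega
  · have : ZD A n = ∅ := eq_empty_of_forall_notMem (fun z hz => h ⟨z, hz⟩)
    rw [this]
    simp

theorem card_Z {A : Finset ℤ} (hA : Star A) (n : ℤ) :
    (Z A n).card ≤ 27 + (Fb (QS A) (fun p => p.1 + p.2) A n).card +
      2 * (Fb A (fun x => 2 * x) A n).card := by
  have hsub : Z A n ⊆ ZD A n ∪ (Fb A (fun x => 2 * x) A n).image (fun t => t.2) ∪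
      (Fb A (fun x => 2 * x) A n).image (fun t => t.1) := by
    intro z hz
    obtain ⟨hz, x, hx, y, hy, e⟩ := mem_Z.1 hz
    by_cases c1 : x = y
    · refine mem_union_left _ (mem_union_right _ (mem_image.2 ⟨(x, z), mem_Fb.2 ⟨hx, hz, ?_⟩, rfl⟩))
      show 2 * x + z = n
      omega
    by_cases c2 : x = z
    · refine mem_union_right _ (mem_image.2 ⟨(z, y), mem_Fb.2 ⟨hz, hy, ?_⟩, rfl⟩)
      show 2 * z + y = n
      omega
    by_cases c3 : y = z
    · refine mem_union_right _ (mem_image.2 ⟨(z, x), mem_Fb.2 ⟨hz, hx, ?_⟩, rfl⟩)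
      show 2 * z + x = n
      omega
    exact mem_union_left _ (mem_union_left _ (mem_ZD.2 ⟨hz, x, hx, y, hy, e, c1, c2, c3⟩))
  have u1 := (card_le_card hsub).trans (card_union_le _ _)
  have u2 := card_union_le (ZD A n) ((Fb A (fun x => 2 * x) A n).image (fun t => t.2))
  have u3 := card_image_le (s := Fb A (fun x => 2 * x) A n) (f := fun t => t.2)
  have u4 := card_image_le (s := Fb A (fun x => 2 * x) A n) (f := fun t => t.1)
  have u5 := card_ZD hA n
  omega

/-- triples `(u, v, z)` in a relation `2u + v = x + y + z` -/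
def G5 (A : Finset ℤ) : Finset ((ℤ × ℤ) × ℤ) :=
  ((A ×ˢ A) ×ˢ A).filter (fun t => t.2 ∈ Z A (2 * t.1.1 + t.1.2))

theorem mem_G5 {A : Finset ℤ} {u v z : ℤ} :
    ((u, v), z) ∈ G5 A ↔ u ∈ A ∧ v ∈ A ∧ z ∈ A ∧ z ∈ Z A (2 * u + v) := by
  unfold G5
  simp only [mem_filter, mem_product, and_assoc]

theorem card_G5 {A : Finset ℤ} (hA : Star A) : (G5 A).card ≤ 57 * (A.card * A.card) := by
  have h1 : (G5 A).card ≤ ∑ u ∈ A, ∑ v ∈ A, (Z A (2 * u + v)).card := by
    unfold G5
    simp only [card_filter, sum_product]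
    refine sum_le_sum (fun u _ => sum_le_sum (fun v _ => ?_))
    rw [← card_filter]
    exact card_le_card (fun z hz => (mem_filter.1 hz).2)
  have h2 : ∑ u ∈ A, ∑ v ∈ A, (Z A (2 * u + v)).card ≤
      ∑ u ∈ A, ∑ v ∈ A, (27 + (Fb (QS A) (fun p => p.1 + p.2) A (2 * u + v)).card +
        2 * (Fb A (fun x => 2 * x) A (2 * u + v)).card) :=
    sum_le_sum (fun u _ => sum_le_sum (fun v _ => card_Z hA _))
  simp only [sum_add_distrib, ← mul_sum, sum_const, smul_eq_mul] at h2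
  have h3 := sum_Fb hA (QS A) (fun p => p.1 + p.2)
  have h4 := sum_Fb hA A (fun x => 2 * x)
  have h5 : (QS A).card * (10 * A.card) ≤ A.card * (10 * A.card) :=
    Nat.mul_le_mul_right _ (card_QS hA)
  nlinarith

end Pool.Agent.Lib.MP_a8c702_nt.BS
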