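import Pool.Agent.Lib.MP_a8c702_nt.BS.Five

/-! Generic triples: at most six of them share the value `a + b - c`. -/

namespace Pool.Agent.Lib.MP_a8c702_nt.BS

open Finset

/-- generic triples -/
noncomputable def Gen (A : Finset ℤ) : Finset ((ℤ × ℤ) × ℤ) :=
  ((A ×ˢ A) ×ˢ A).filter (fun t => (t.1.1, t.1.2) ∉ Ex A ∧ (t.1.1, t.2) ∉ Ex A ∧
    (t.1.2, t.2) ∉ Ex A ∧ ((t.1.1, t.1.2), t.2) ∉ G5 A ∧ ((t.1.2, t.1.1), t.2) ∉ G5 A)

theorem mem_Gen {A : Finset ℤ} {a b c : ℤ} :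
    ((a, b), c) ∈ Gen A ↔ a ∈ A ∧ b ∈ A ∧ c ∈ A ∧ (a, b) ∉ Ex A ∧ (a, c) ∉ Ex A ∧ (b, c) ∉ Ex A ∧
      ((a, b), c) ∉ G5 A ∧ ((b, a), c) ∉ G5 A := by
  unfold Gen
  simp only [mem_filter, mem_product, and_assoc]

theorem card_tri (A : Finset ℤ) (E : Finset (ℤ × ℤ)) (T : Finset ((ℤ × ℤ) × ℤ))
    (f : (ℤ × ℤ) × ℤ → (ℤ × ℤ) × ℤ) (hf : Function.Injective f)
    (h : ∀ t ∈ T, (f t).1 ∈ E ∧ (f t).2 ∈ A) : T.card ≤ E.card * A.card := by
  rw [← card_product]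
  exact card_le_card_of_injOn f (fun t ht => mem_product.2 (h t ht)) (fun _ _ _ _ e => hf e)

theorem card_nonGen {A : Finset ℤ} (hA : Star A) :
    (((A ×ˢ A) ×ˢ A) \ Gen A).card ≤ 2000 * (A.card * A.card) := by
  set T := (A ×ˢ A) ×ˢ A with hT
  have hsub : T \ Gen A ⊆ T.filter (fun t => (t.1.1, t.1.2) ∈ Ex A) ∪
      T.filter (fun t => (t.1.1, t.2) ∈ Ex A) ∪ T.filter (fun t => (t.1.2, t.2) ∈ Ex A) ∪
      G5 A ∪ (G5 A).image (fun t => ((t.1.2, t.1.1), t.2)) := by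
    rintro ⟨⟨a, b⟩, c⟩ ht
    obtain ⟨h1, h2⟩ := mem_sdiff.1 ht
    have h3 : a ∈ A ∧ b ∈ A ∧ c ∈ A := by
      rw [hT] at h1
      simpa only [mem_product, and_assoc] using h1
    by_cases c1 : (a, b) ∈ Ex A
    · exact mem_union_left _ (mem_union_left _ (mem_union_left _ (mem_union_left _
        (mem_filter.2 ⟨h1, c1⟩))))
    by_cases c2 : (a, c) ∈ Ex A
    · exact mem_union_left _ (mem_union_left _ (mem_union_left _ (mem_union_right _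
        (mem_filter.2 ⟨h1, c2⟩))))
    by_cases c3 : (b, c) ∈ Ex A
    · exact mem_union_left _ (mem_union_left _ (mem_union_right _ (mem_filter.2 ⟨h1, c3⟩)))
    by_cases c4 : ((a, b), c) ∈ G5 A
    · exact mem_union_left _ (mem_union_right _ c4)
    by_cases c5 : ((b, a), c) ∈ G5 A
    · exact mem_union_right _ (mem_image.2 ⟨((b, a), c), c5, rfl⟩)
    exact absurd (mem_Gen.2 ⟨h3.1, h3.2.1, h3.2.2, c1, c2, c3, c4, c5⟩) h2
  have mT : ∀ t ∈ T, t.1.1 ∈ A ∧ t.1.2 ∈ A ∧ t.2 ∈ A := by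
    intro t ht
    rw [hT] at ht
    simpa only [mem_product, and_assoc] using ht
  have a1 := card_tri A (Ex A) (T.filter (fun t => (t.1.1, t.1.2) ∈ Ex A)) id
    Function.injective_id (fun t ht => ⟨(mem_filter.1 ht).2, (mT t (mem_filter.1 ht).1).2.2⟩)
  have a2 := card_tri A (Ex A) (T.filter (fun t => (t.1.1, t.2) ∈ Ex A))
    (fun t => ((t.1.1, t.2), t.1.2))
    (by
      rintro ⟨⟨a, b⟩, c⟩ ⟨⟨a', b'⟩, c'⟩ e
      simp only [Prod.mk.injEq] at e ⊢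
      tauto)
    (fun t ht => ⟨(mem_filter.1 ht).2, (mT t (mem_filter.1 ht).1).2.1⟩)
  have a3 := card_tri A (Ex A) (T.filter (fun t => (t.1.2, t.2) ∈ Ex A))
    (fun t => ((t.1.2, t.2), t.1.1))
    (by
      rintro ⟨⟨a, b⟩, c⟩ ⟨⟨a', b'⟩, c'⟩ e
      simp only [Prod.mk.injEq] at e ⊢
      tauto)
    (fun t ht => ⟨(mem_filter.1 ht).2, (mT t (mem_filter.1 ht).1).1⟩)
  have a4 := card_G5 hA
  have a5 := card_image_le (s := G5 A) (f := fun t => ((t.1.2, t.1.1), t.2))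
  have a6 : (Ex A).card * A.card ≤ 533 * (A.card * A.card) := by
    rw [← mul_assoc]
    exact Nat.mul_le_mul_right _ (card_Ex hA)
  have u1 := (card_le_card hsub).trans (card_union_le _ _)
  have u2 := card_union_le (T.filter (fun t => (t.1.1, t.1.2) ∈ Ex A) ∪
      T.filter (fun t => (t.1.1, t.2) ∈ Ex A) ∪ T.filter (fun t => (t.1.2, t.2) ∈ Ex A)) (G5 A)
  have u3 := card_union_le (T.filter (fun t => (t.1.1, t.1.2) ∈ Ex A) ∪
      T.filter (fun t => (t.1.1, t.2) ∈ Ex A)) (T.filter (fun t => (t.1.2, t.2) ∈ Ex A))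
  have u4 := card_union_le (T.filter (fun t => (t.1.1, t.1.2) ∈ Ex A))
      (T.filter (fun t => (t.1.1, t.2) ∈ Ex A))
  omega

/-- a second representation of a difference that is not bad comes from the partners -/
theorem keep {A : Finset ℤ} (hA : Star A) {b c b' c' : ℤ} (hb : b ∈ A) (hc : c ∈ A) (hb' : b' ∈ A)
    (hc' : c' ∈ A) (hE : (b, c) ∉ Ex A) (e : b - c = b' - c') (n1 : b' ≠ b) (n2 : c' ≠ b)
    (n3 : b' ≠ c) :
    (pi A b = b' ∧ pi A c = c') ∨ (pi A b = c' ∧ pi A c = b') := by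
  rw [mem_Ex hb hc] at hE
  simp only [not_or] at hE
  obtain ⟨h1, _, h3, _⟩ := hE
  by_cases d : 8 < dR A (b' - b)
  · exact Or.inl ⟨piD hA hb' n1 rfl d, piD hA hc' (by omega) (by omega) d⟩
  by_cases s : 8 < sR A (b + c')
  · exact Or.inr ⟨piS hA hc' n2 (by omega) s, piS hA hb' n3 (by omega) s⟩
  exact absurd ⟨h1, b', hb', c', hc', n1, e, by omega, by omega⟩ h3

/-- a second representation of a sum that is not exceptional comes from the partners -/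
theorem same {A : Finset ℤ} (hA : Star A) {a b a' b' : ℤ} (ha : a ∈ A) (hb : b ∈ A) (ha' : a' ∈ A)
    (hb' : b' ∈ A) (hE : (a, b) ∉ Ex A) (e : a + b = a' + b') (n1 : a' ≠ a) (n2 : a' ≠ b) :
    (pi A a = a' ∧ pi A b = b') ∨ (pi A a = b' ∧ pi A b = a') := by
  rw [mem_Ex ha hb] at hE
  simp only [not_or] at hE
  obtain ⟨h1, h2, _, h4⟩ := hE
  by_cases s : 8 < sR A (a + b)
  · exact absurd (piS hA hb (Ne.symm h1) (by omega) s).symm h2
  by_cases d : 8 < dR A (a - a')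
  · refine Or.inl ⟨piD hA ha' n1 (y := -(a - a')) (by omega) (by rwa [dR_neg]), ?_⟩
    exact piD hA hb' (by omega) (by omega) d
  by_cases d' : 8 < dR A (b' - a)
  · refine Or.inr ⟨piD hA hb' (by omega) rfl d', ?_⟩
    exact piD hA ha' n2 (y := -(b' - a)) (by omega) (by rwa [dR_neg])
  refine absurd ⟨a', ha', ⟨Ne.symm n1, b', hb', b, hb, by omega, by omega, by omega, by omega⟩,
    mem_DS hb' hb (by omega) (by omega)⟩ h4

theorem six {α : Type} [DecidableEq α] (F : Finset α) (p q r : Prop) (x0 y0 x1 y1 x2 y2 x3 y3 : α)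
    (hn : ¬ (p ∧ q ∧ r))
    (h : ∀ t ∈ F, (t = x0 ∨ t = y0) ∨ (p ∧ (t = x1 ∨ t = y1)) ∨ (q ∧ (t = x2 ∨ t = y2)) ∨
      (r ∧ (t = x3 ∨ t = y3))) : F.card ≤ 6 := by
  by_cases hp : p
  · by_cases hq : q
    · refine le_trans (card_le_card (t := {x0, y0, x1, y1, x2, y2}) (fun t ht => ?_)) card_le_six
      have := h t ht
      simp only [mem_insert, mem_singleton]
      tauto
    · refine le_trans (card_le_card (t := {x0, y0, x1, y1, x3, y3}) (fun t ht => ?_)) card_le_six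
      have := h t ht
      simp only [mem_insert, mem_singleton]
      tauto
  · refine le_trans (card_le_card (t := {x0, y0, x2, y2, x3, y3}) (fun t ht => ?_)) card_le_six
    have := h t ht
    simp only [mem_insert, mem_singleton]
    tauto

theorem not5 {A : Finset ℤ} {u v z x y : ℤ} (hu : u ∈ A) (hv : v ∈ A) (hz : z ∈ A) (hx : x ∈ A)
    (hy : y ∈ A) (h : ((u, v), z) ∉ G5 A) : x + y + z ≠ 2 * u + v :=
  fun e => h (mem_G5.2 ⟨hu, hv, hz, mem_Z.2 ⟨hz, x, hx, y, hy, e⟩⟩)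

theorem ne_of_Ex {A : Finset ℤ} {a b : ℤ} (ha : a ∈ A) (hb : b ∈ A) (h : (a, b) ∉ Ex A) :
    a ≠ b ∧ b ≠ pi A a := by
  rw [mem_Ex ha hb] at h
  simp only [not_or] at h
  exact ⟨h.1, h.2.1⟩

theorem alt_same {a b c a' b' c' pa pb : ℤ} (e : a + b - c = a' + b' - c') (k : c' = c)
    (n1 : a' ≠ a) (n2 : a' ≠ b) (h : (pa = a' ∧ pb = b') ∨ (pa = b' ∧ pb = a')) :
    (pa + pb = a + b ∧ pa ≠ a) ∧ (((a', b'), c') = ((pa, pb), c) ∨ ((a', b'), c') = ((pb, pa), c)) := by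
  rcases h with ⟨rfl, rfl⟩ | ⟨rfl, rfl⟩
  · exact ⟨⟨by omega, n1⟩, Or.inl (by rw [k])⟩
  · exact ⟨⟨by omega, by omega⟩, Or.inr (by rw [k])⟩

theorem alt_keep {b c b' c' pb pc s t : ℤ} (e : b - c = b' - c') (n : b ≠ c)
    (hst : (pb - b = pc - c ∧ s = pb ∧ t = pc) ∨ (pb - b ≠ pc - c ∧ s = pc ∧ t = pb))
    (h : (pb = b' ∧ pc = c') ∨ (pb = c' ∧ pc = b')) :
    (pb - b = pc - c ∨ b + pb = c + pc) ∧ b' = s ∧ c' = t := by
  omega

theorem not_all {a b c pa pb pc : ℤ} (h1 : b ≠ pa) (h2 : c ≠ pa) (h3 : c ≠ pb) :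
    ¬ ((pa + pb = a + b ∧ pa ≠ a) ∧ (pb - b = pc - c ∨ b + pb = c + pc) ∧
      (pa - a = pc - c ∨ a + pa = c + pc)) := by
  omega

theorem coinc {A : Finset ℤ} (hA : Star A) {a b c a' b' c' : ℤ} (g0 : ((a, b), c) ∈ Gen A)
    (g1 : ((a', b'), c') ∈ Gen A) (e : a + b - c = a' + b' - c') :
    (a ≠ c' ∧ b ≠ c' ∧ a' ≠ c ∧ b' ≠ c) ∧ (c' = c ∨ a' = a ∨ b' = a ∨ a' = b ∨ b' = b) := by
  obtain ⟨ha, hb, hc, Eab, Eac, Ebc, F1, F2⟩ := mem_Gen.1 g0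
  obtain ⟨ha', hb', hc', Eab', Eac', Ebc', F1', F2'⟩ := mem_Gen.1 g1
  have m1 : a ≠ c' := fun k => not5 ha hb hc ha' hb' F1 (by omega)
  have m2 : b ≠ c' := fun k => not5 hb ha hc ha' hb' F2 (by omega)
  have m3 : a' ≠ c := fun k => not5 ha' hb' hc' ha hb F1' (by omega)
  have m4 : b' ≠ c := fun k => not5 hb' ha' hc' ha hb F2' (by omega)
  have n1 := (ne_of_Ex ha hb Eab).1
  have n2 := (ne_of_Ex ha hc Eac).1
  have n3 := (ne_of_Ex hb hc Ebc).1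
  have n4 := (ne_of_Ex ha' hb' Eab').1
  have n5 := (ne_of_Ex ha' hc' Eac').1
  have n6 := (ne_of_Ex hb' hc' Ebc').1
  refine ⟨⟨m1, m2, m3, m4⟩, ?_⟩
  rcases hA a ha b hb c' hc' a' ha' b' hb' c hc (by clear * - e; omega) with
    k | k | k | k | k | k | k | k | k | k | k | k | k | k | k
  · exact absurd k n1
  · exact absurd k m1
  · exact absurd k m2
  · exact absurd k n4
  · exact absurd k m3
  · exact absurd k m4
  · exact Or.inr (Or.inl k.symm)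
  · exact Or.inr (Or.inr (Or.inl k.symm))
  · exact absurd k n2
  · exact Or.inr (Or.inr (Or.inr (Or.inl k.symm)))
  · exact Or.inr (Or.inr (Or.inr (Or.inr k.symm)))
  · exact absurd k n3
  · exact absurd k.symm n5
  · exact absurd k.symm n6
  · exact Or.inl k

theorem choose_st (x y u v : ℤ) : ∃ s t : ℤ, (x = y ∧ s = u ∧ t = v) ∨ (x ≠ y ∧ s = v ∧ t = u) := by
  by_cases hh : x = y
  · exact ⟨u, v, Or.inl ⟨hh, rfl, rfl⟩⟩
  · exact ⟨v, u, Or.inr ⟨hh, rfl, rfl⟩⟩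

theorem fib_Gen {A : Finset ℤ} (hA : Star A) (x : ℤ) :
    ((Gen A).filter (fun t => t.1.1 + t.1.2 - t.2 = x)).card ≤ 6 := by
  by_cases h : ((Gen A).filter (fun t => t.1.1 + t.1.2 - t.2 = x)).Nonempty
  swap
  · rw [not_nonempty_iff_eq_empty.1 h]
    simp
  obtain ⟨⟨⟨a, b⟩, c⟩, h0⟩ := h
  obtain ⟨g0, e0⟩ := mem_filter.1 h0
  have e0' : a + b - c = x := e0
  obtain ⟨ha, hb, hc, Eab, Eac, Ebc, -, -⟩ := mem_Gen.1 g0
  obtain ⟨sb, tb, hstb⟩ := choose_st (pi A b - b) (pi A c - c) (pi A b) (pi A c)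
  obtain ⟨sa, ta, hsta⟩ := choose_st (pi A a - a) (pi A c - c) (pi A a) (pi A c)
  refine six _ _ _ _ ((a, b), c) ((b, a), c) ((pi A a, pi A b), c) ((pi A b, pi A a), c)
    ((a, sb), tb) ((sb, a), tb) ((b, sa), ta) ((sa, b), ta)
    (not_all (pc := pi A c) (a := a) (ne_of_Ex ha hb Eab).2 (ne_of_Ex ha hc Eac).2
      (ne_of_Ex hb hc Ebc).2) ?_
  rintro ⟨⟨a', b'⟩, c'⟩ ht
  obtain ⟨g1, e1⟩ := mem_filter.1 ht
  have e1' : a' + b' - c' = x := e1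
  have e : a + b - c = a' + b' - c' := e0'.trans e1'.symm
  obtain ⟨ha', hb', hc', -⟩ := mem_Gen.1 g1
  obtain ⟨⟨m1, m2, m3, m4⟩, key⟩ := coinc hA g0 g1 e
  by_cases t1 : a' = a ∧ b' = b
  · have : c' = c := by clear * - e t1; omega
    exact Or.inl (Or.inl (by rw [t1.1, t1.2, this]))
  by_cases t2 : a' = b ∧ b' = a
  · have : c' = c := by clear * - e t2; omega
    exact Or.inl (Or.inr (by rw [t2.1, t2.2, this]))
  right
  rcases key with k | k | k | k | k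
  · have n1 : a' ≠ a := by clear * - e k t1; omega
    have n2 : a' ≠ b := by clear * - e k t2; omega
    exact Or.inl (alt_same e k n1 n2
      (same hA ha hb ha' hb' Eab (by clear * - e k; omega) n1 n2))
  · have e2 : b - c = b' - c' := by clear * - e k; omega
    obtain ⟨h1, h2, h3⟩ := alt_keep e2 (ne_of_Ex hb hc Ebc).1 hstb
      (keep hA hb hc hb' hc' Ebc e2 (fun h => t1 ⟨k, h⟩) m2.symm m4)
    exact Or.inr (Or.inl ⟨h1, Or.inl (by rw [k, h2, h3])⟩)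
  · have e2 : b - c = a' - c' := by clear * - e k; omega
    obtain ⟨h1, h2, h3⟩ := alt_keep e2 (ne_of_Ex hb hc Ebc).1 hstb
      (keep hA hb hc ha' hc' Ebc e2 (fun h => t2 ⟨h, k⟩) m2.symm m3)
    exact Or.inr (Or.inl ⟨h1, Or.inr (by rw [k, h2, h3])⟩)
  · have e2 : a - c = b' - c' := by clear * - e k; omega
    obtain ⟨h1, h2, h3⟩ := alt_keep e2 (ne_of_Ex ha hc Eac).1 hsta
      (keep hA ha hc hb' hc' Eac e2 (fun h => t2 ⟨k, h⟩) m1.symm m4)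
    exact Or.inr (Or.inr ⟨h1, Or.inl (by rw [k, h2, h3])⟩)
  · have e2 : a - c = a' - c' := by clear * - e k; omega
    obtain ⟨h1, h2, h3⟩ := alt_keep e2 (ne_of_Ex ha hc Eac).1 hsta
      (keep hA ha hc ha' hc' Eac e2 (fun h => t1 ⟨h, k⟩) m1.symm m3)
    exact Or.inr (Or.inr ⟨h1, Or.inr (by rw [k, h2, h3])⟩)

theorem sum_tri {A : Finset ℤ} (hA : Star A) (Ψ : ℤ → ℕ) (M : ℕ) (hM : ∀ x, Ψ x ≤ M)
    (S : ℕ) (hS : ∀ X : Finset ℤ, ∑ x ∈ X, Ψ x ≤ S) :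
    ∑ t ∈ (A ×ˢ A) ×ˢ A, Ψ (t.1.1 + t.1.2 - t.2) ≤ 6 * S + 2000 * (A.card * A.card) * M := by
  have hsub : Gen A ⊆ (A ×ˢ A) ×ˢ A := filter_subset _ _
  rw [← sum_sdiff hsub]
  have a1 : ∑ t ∈ ((A ×ˢ A) ×ˢ A) \ Gen A, Ψ (t.1.1 + t.1.2 - t.2) ≤
      2000 * (A.card * A.card) * M := by
    refine (sum_le_card_nsmul _ _ M (fun t _ => hM _)).trans ?_
    rw [smul_eq_mul]
    exact Nat.mul_le_mul_right _ (card_nonGen hA)
  have a2 : ∑ t ∈ Gen A, Ψ (t.1.1 + t.1.2 - t.2) ≤ 6 * S := by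
    rw [sum_comp Ψ (fun t : (ℤ × ℤ) × ℤ => t.1.1 + t.1.2 - t.2)]
    refine le_trans (sum_le_sum (g := fun x => 6 * Ψ x) (fun x _ => ?_)) ?_
    · rw [smul_eq_mul]
      exact Nat.mul_le_mul_right _ (fib_Gen hA x)
    · rw [← mul_sum]
      exact Nat.mul_le_mul_left _ (hS _)
  omega

end Pool.Agent.Lib.MP_a8c702_nt.BS
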