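import Pool.Agent.Lib.MP_a8c702_nt.BS.Defs

/-! Basic facts on the autoconvolution constant. -/

namespace Pool.Agent.Lib.MP_a8c702_nt.BS

open Finset

theorem energy_eq (n : ℕ) (w : ℕ → ℝ) :
    energy n w = ∑ s ∈ range (2 * n),
      (∑ p ∈ range n ×ˢ range n, if p.1 + p.2 = s then w p.1 * w p.2 else 0) ^ 2 := by
  have h1 : energy n w = ∑ p ∈ range n ×ˢ range n, ∑ q ∈ range n ×ˢ range n,
      if p.1 + p.2 = q.1 + q.2 then w p.1 * w p.2 * w q.1 * w q.2 else 0 := by
    unfold energy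
    simp only [sum_product]
  rw [h1]
  simp only [sq, sum_mul_sum]
  rw [sum_comm (s := range (2 * n))]
  refine sum_congr rfl (fun p hp => ?_)
  rw [sum_comm (s := range (2 * n))]
  refine sum_congr rfl (fun q _ => ?_)
  have hp' := mem_product.1 hp
  have h2 := mem_range.1 hp'.1
  have h3 := mem_range.1 hp'.2
  rw [sum_eq_single (p.1 + p.2)]
  · by_cases h : p.1 + p.2 = q.1 + q.2
    · rw [if_pos h, if_pos rfl, if_pos h.symm]
      ring
    · have h' : ¬ q.1 + q.2 = p.1 + p.2 := fun e => h e.symm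
      rw [if_neg h, if_neg h', mul_zero]
  · intro s _ hs
    rw [if_neg (Ne.symm hs), zero_mul]
  · intro h
    exact absurd (mem_range.2 (by omega)) h

theorem half_le (n : ℕ) (w : ℕ → ℝ) (h : ∑ a ∈ range n, w a = 1) : 1 / 2 ≤ n * energy n w := by
  have h1 : ∑ s ∈ range (2 * n),
      (∑ p ∈ range n ×ˢ range n, if p.1 + p.2 = s then w p.1 * w p.2 else 0) = 1 := by
    rw [sum_comm]
    have : ∑ p ∈ range n ×ˢ range n, w p.1 * w p.2 = 1 := by
      rw [sum_product, ← sum_mul_sum, h, mul_one]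
    rw [← this]
    refine sum_congr rfl (fun p hp => ?_)
    have hp' := mem_product.1 hp
    have h2 := mem_range.1 hp'.1
    have h3 := mem_range.1 hp'.2
    rw [sum_ite_eq, if_pos (mem_range.2 (by omega))]
  have h2 := sq_sum_le_card_mul_sum_sq (s := range (2 * n)) (f := fun s =>
    ∑ p ∈ range n ×ˢ range n, if p.1 + p.2 = s then w p.1 * w p.2 else 0)
  rw [h1, card_range, ← energy_eq] at h2
  push_cast at h2
  linarith

theorem half_le_mu : 1 / 2 ≤ mu := by
  unfold mu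
  refine le_csInf ⟨_, 1, fun _ => 1, fun _ => zero_le_one, by simp, rfl⟩ ?_
  rintro x ⟨n, w, _, h, rfl⟩
  exact half_le n w h

theorem mu_le (n : ℕ) (w : ℕ → ℝ) (h0 : ∀ a, 0 ≤ w a) (h : ∑ a ∈ range n, w a = 1) :
    mu ≤ n * energy n w := by
  unfold mu
  refine csInf_le ⟨1 / 2, ?_⟩ ⟨n, w, h0, h, rfl⟩
  rintro x ⟨n, w, _, h, rfl⟩
  exact half_le n w h

theorem mu_scale (n : ℕ) (w : ℕ → ℝ) (h0 : ∀ a, 0 ≤ w a) (S : ℝ) (hS : 0 < S)
    (h : ∑ a ∈ range n, w a = S) : mu * S ^ 4 ≤ n * energy n w := by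
  have h1 := mu_le n (fun a => w a / S) (fun a => div_nonneg (h0 a) hS.le)
    (by rw [← sum_div, h, div_self hS.ne'])
  have h2 : energy n (fun a => w a / S) * S ^ 4 = energy n w := by
    unfold energy
    simp only [sum_mul]
    refine sum_congr rfl (fun a _ => sum_congr rfl (fun b _ => sum_congr rfl (fun c _ =>
      sum_congr rfl (fun d _ => ?_))))
    split_ifs
    · field_simp
    · simp
  rw [← h2, ← mul_assoc]
  exact mul_le_mul_of_nonneg_right h1 (by positivity)

theorem sum_wt {α : Type} (Y : Finset α) (f : α → ℕ) (n : ℕ) (hf : ∀ y ∈ Y, f y < n) (g : ℕ → ℝ) :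
    ∑ s ∈ range n, ((Y.filter (fun y => f y = s)).card : ℝ) * g s = ∑ y ∈ Y, g (f y) := by
  rw [← sum_fiberwise_of_maps_to (s := Y) (t := range n) (g := f) (fun y hy => mem_range.2 (hf y hy))]
  refine sum_congr rfl (fun s _ => ?_)
  rw [sum_congr rfl (g := fun _ => g s) (fun y hy => by rw [(mem_filter.1 hy).2]), sum_const,
    nsmul_eq_mul]

theorem energy_count {α : Type} (Y : Finset α) (f : α → ℕ) (n : ℕ) (hf : ∀ y ∈ Y, f y < n) :
    energy n (fun s => ((Y.filter (fun y => f y = s)).card : ℝ)) =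
      (((Y ×ˢ Y ×ˢ Y ×ˢ Y).filter
        (fun t => f t.1 + f t.2.1 = f t.2.2.1 + f t.2.2.2)).card : ℝ) := by
  set W : ℕ → ℝ := fun s => ((Y.filter (fun y => f y = s)).card : ℝ) with hW
  have h1 : energy n W = ∑ a ∈ range n, W a * ∑ b ∈ range n, W b * ∑ c ∈ range n, W c *
      ∑ d ∈ range n, W d * (if a + b = c + d then 1 else 0) := by
    unfold energy
    simp only [mul_sum]
    refine sum_congr rfl (fun a _ => sum_congr rfl (fun b _ => sum_congr rfl (fun c _ =>
      sum_congr rfl (fun d _ => ?_))))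
    split_ifs
    · ring
    · simp
  rw [h1]
  simp only [hW, sum_wt Y f n hf]
  rw [card_filter]
  push_cast
  simp only [sum_product]

theorem mu_count {α : Type} (Y : Finset α) (hY : Y.Nonempty) (f : α → ℕ) (n : ℕ)
    (hf : ∀ y ∈ Y, f y < n) :
    mu * (Y.card : ℝ) ^ 4 ≤ n * (((Y ×ˢ Y ×ˢ Y ×ˢ Y).filter
        (fun t => f t.1 + f t.2.1 = f t.2.2.1 + f t.2.2.2)).card : ℝ) := by
  rw [← energy_count Y f n hf]
  refine mu_scale n _ (fun a => Nat.cast_nonneg _) _ (by exact_mod_cast hY.card_pos) ?_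
  have := sum_wt Y f n hf (fun _ => 1)
  simpa using this

end Pool.Agent.Lib.MP_a8c702_nt.BS
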