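import Pool.Agent.Lib.MP_a8c702_nt.BS.Gen
import Pool.Agent.Lib.MP_a8c702_nt.BS.Mu

/-! Smoothing by an interval and the final estimate. -/

namespace Pool.Agent.Lib.MP_a8c702_nt.BS

open Finset

/-- an element of `A` and four shifts -/
def QQ (A : Finset ℤ) (u : ℕ) : Finset ((ℤ × ℕ × ℕ × ℕ) × ℕ) :=
  (A ×ˢ range u ×ˢ range u ×ˢ range u) ×ˢ range u

/-- the value attached to an element of `QQ` -/
def val (q : (ℤ × ℕ × ℕ × ℕ) × ℕ) : ℤ := q.1.1 + q.1.2.2.2 + q.2 - q.1.2.1 - q.1.2.2.1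

theorem card_QQ (A : Finset ℤ) (u : ℕ) : (QQ A u).card = A.card * u ^ 4 := by
  unfold QQ
  simp only [card_product, card_range]
  ring

theorem psi_le (A : Finset ℤ) (u : ℕ) (x : ℤ) :
    ((QQ A u).filter (fun q => val q = x)).card ≤ A.card * u ^ 3 := by
  have h : (A ×ˢ range u ×ˢ range u ×ˢ range u).card = A.card * u ^ 3 := by
    simp only [card_product, card_range]
    ring
  rw [← h]
  refine card_le_card_of_injOn (fun q => q.1)
    (fun q hq => (mem_product.1 (mem_filter.1 hq).1).1) (fun p hp q hq e => ?_)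
  have a := (mem_filter.1 hp).2
  have b := (mem_filter.1 hq).2
  have e' : p.1 = q.1 := e
  unfold val at a b
  rw [e'] at a
  exact Prod.ext e' (by omega)

theorem count_le {A : Finset ℤ} (hA : Star A) (h0 : ∀ a ∈ A, 0 ≤ a) (u : ℕ) :
    (((A ×ˢ range u) ×ˢ (A ×ˢ range u) ×ˢ (A ×ˢ range u) ×ˢ (A ×ˢ range u)).filter
      (fun t => (t.1.1.toNat + t.1.2) + (t.2.1.1.toNat + t.2.1.2) =
        (t.2.2.1.1.toNat + t.2.2.1.2) + (t.2.2.2.1.toNat + t.2.2.2.2))).card ≤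
      6 * (A.card * u ^ 4) + 2000 * (A.card * A.card) * (A.card * u ^ 3) := by
  refine le_trans ?_ (sum_tri hA (fun x => ((QQ A u).filter (fun q => val q = x)).card) _
    (psi_le A u) _ (fun X => ?_))
  · have h1 : ∑ t ∈ (A ×ˢ A) ×ˢ A, ((QQ A u).filter (fun q => val q = t.1.1 + t.1.2 - t.2)).card =
        ((((A ×ˢ A) ×ˢ A) ×ˢ QQ A u).filter
          (fun p => val p.2 = p.1.1.1 + p.1.1.2 - p.1.2)).card := by
      rw [card_filter, sum_product (s := (A ×ˢ A) ×ˢ A) (t := QQ A u)]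
      simp only [card_filter]
    rw [h1]
    refine card_le_card_of_injOn (fun t => (((t.1.1, t.2.1.1), t.2.2.1.1),
      ((t.2.2.2.1, t.1.2, t.2.1.2, t.2.2.1.2), t.2.2.2.2))) ?_ ?_
    · rintro ⟨⟨a, i⟩, ⟨b, j⟩, ⟨c, l⟩, ⟨d, m⟩⟩ ht
      simp only [coe_filter, mem_product, Set.mem_setOf_eq, QQ, val] at ht ⊢
      obtain ⟨⟨⟨ha, hi⟩, ⟨hb, hj⟩, ⟨hc, hl⟩, hd, hm⟩, e⟩ := ht
      refine ⟨⟨⟨⟨ha, hb⟩, hc⟩, ⟨hd, hi, hj, hl⟩, hm⟩, ?_⟩
      have := h0 a ha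
      have := h0 b hb
      have := h0 c hc
      have := h0 d hd
      omega
    · rintro ⟨⟨a, i⟩, ⟨b, j⟩, ⟨c, l⟩, ⟨d, m⟩⟩ _ ⟨⟨a', i'⟩, ⟨b', j'⟩, ⟨c', l'⟩, ⟨d', m'⟩⟩ _ e
      simp only [Prod.mk.injEq] at e ⊢
      tauto
  · rw [← card_QQ]
    exact sum_fib (QQ A u) val X id (fun _ _ _ _ h => h)

theorem main_ineq {A : Finset ℤ} (hA : Star A) (N : ℕ) (hN : ∀ a ∈ A, 0 ≤ a ∧ a ≤ N) (u : ℕ)
    (hu : 0 < u) :
    mu * (A.card : ℝ) ^ 3 * u ≤ (N + u) * (6 * u + 2000 * (A.card : ℝ) ^ 2) := by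
  rcases A.eq_empty_or_nonempty with rfl | hne
  · simp only [card_empty, Nat.cast_zero]
    have : (0 : ℝ) ≤ (N + u) * (6 * u) := by positivity
    nlinarith
  have h1 := mu_count (A ×ˢ range u) (hne.product (nonempty_range_iff.2 hu.ne'))
    (fun y => y.1.toNat + y.2) (N + u) (fun y hy => by
      have h := mem_product.1 hy
      have h2 := hN _ h.1
      have h3 := mem_range.1 h.2
      omega)
  have h2 := count_le hA (fun a ha => (hN a ha).1) u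
  have h3 := (Nat.cast_le (α := ℝ)).2 h2
  have h4 := h1.trans (mul_le_mul_of_nonneg_left h3 (Nat.cast_nonneg _))
  rw [card_product, card_range] at h4
  push_cast at h4
  have hk : (0 : ℝ) < A.card := by exact_mod_cast hne.card_pos
  have hu' : (0 : ℝ) < u := by exact_mod_cast hu
  have hp : (0 : ℝ) < A.card * (u : ℝ) ^ 3 := by positivity
  refine le_of_mul_le_mul_left ?_ hp
  calc _ = mu * ((A.card : ℝ) * u) ^ 4 := by ring
    _ ≤ _ := h4
    _ = _ := by ring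

theorem sq_small (η : ℝ) (hη : 0 < η) : ∃ N₀ : ℕ, ∀ N : ℕ, N₀ ≤ N → ∀ k : ℝ, 0 ≤ k →
    k ^ 3 ≤ 24 * N + 8000 * k ^ 2 → k ^ 2 ≤ η * N := by
  obtain ⟨N₀, hN₀⟩ := exists_nat_ge ((16000 + 48 / η) ^ 2 / η)
  refine ⟨N₀, fun N hN k hk h => ?_⟩
  have h1 : (16000 + 48 / η) ^ 2 ≤ η * N := by
    have : (N₀ : ℝ) ≤ N := by exact_mod_cast hN
    have h2 := (div_le_iff₀ hη).1 (hN₀.trans this)
    linarith
  by_contra hc
  push Not at hc
  have h3 : 0 ≤ 48 / η := by positivity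
  have h4 : 16000 + 48 / η < k := by
    by_contra h5
    push Not at h5
    have := pow_le_pow_left₀ hk h5 2
    linarith
  have h5 : 16000 * k ^ 2 ≤ k ^ 3 := by nlinarith [sq_nonneg k]
  have h6 : k ^ 3 ≤ 48 * N := by linarith
  have h7 : 48 < k * η := by
    have : 48 / η < k := by linarith
    exact (div_lt_iff₀ hη).1 this
  have hkpos : 0 < k := by linarith
  have h8 : k * (η * N) < k * k ^ 2 := mul_lt_mul_of_pos_left hc hkpos
  have h9 : (0 : ℝ) ≤ N := Nat.cast_nonneg _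
  nlinarith

theorem final (ε : ℝ) (hε : 0 < ε) : ∃ N₀ : ℕ, ∀ N : ℕ, N₀ ≤ N → ∀ A : Finset ℤ, Star A →
    (∀ a ∈ A, 0 ≤ a ∧ a ≤ N) → (A.card : ℝ) ^ 3 ≤ (6 / mu + ε) * N := by
  have hmu := half_le_mu
  have hmu0 : 0 < mu := by linarith
  set δ : ℝ := min 1 (ε / 12024) with hδ
  have hδ0 : 0 < δ := lt_min one_pos (by positivity)
  have hδ1 : δ ≤ 1 := min_le_left _ _
  have hδ2 : δ ≤ ε / 12024 := min_le_right _ _
  obtain ⟨N₁, h₁⟩ := sq_small (δ ^ 2) (by positivity)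
  obtain ⟨N₂, h₂⟩ := exists_nat_ge (1 / δ)
  refine ⟨max (max N₁ N₂) 1, fun N hN A hA hAN => ?_⟩
  have hN1 : N₁ ≤ N := le_trans (le_trans (le_max_left _ _) (le_max_left _ _)) hN
  have hN2 : N₂ ≤ N := le_trans (le_trans (le_max_right _ _) (le_max_left _ _)) hN
  have hN3 : 0 < N := le_trans (le_max_right _ _) hN
  have hNr : (0 : ℝ) < N := by exact_mod_cast hN3
  set k : ℝ := (A.card : ℝ) with hk
  have hk0 : 0 ≤ k := Nat.cast_nonneg _
  have hk3 : 0 ≤ k ^ 3 := by positivity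
  have a1 : k ^ 3 ≤ 24 * N + 8000 * k ^ 2 := by
    have h := main_ineq hA N hAN N hN3
    rw [← hk] at h
    have h' : mu * k ^ 3 ≤ 2 * (6 * N + 2000 * k ^ 2) := by
      refine le_of_mul_le_mul_right ?_ hNr
      linarith
    nlinarith
  have a2 := h₁ N hN1 k hk0 a1
  have a3 : 1 ≤ δ * N := by
    have : (N₂ : ℝ) ≤ N := by exact_mod_cast hN2
    have h := (div_le_iff₀ hδ0).1 (h₂.trans this)
    linarith
  have hu1 : δ * N ≤ (⌈δ * N⌉₊ : ℕ) := Nat.le_ceil _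
  have hu2 : ((⌈δ * N⌉₊ : ℕ) : ℝ) < δ * N + 1 := Nat.ceil_lt_add_one (by positivity)
  have hu3 : 0 < ⌈δ * N⌉₊ := Nat.ceil_pos.2 (by positivity)
  have h := main_ineq hA N hAN _ hu3
  rw [← hk] at h
  set u : ℝ := ((⌈δ * N⌉₊ : ℕ) : ℝ) with hu
  have hu0 : 0 < u := by linarith
  have b1 : k ^ 2 ≤ δ * u := by nlinarith
  have b2 : (N + u) * (6 * u + 2000 * k ^ 2) ≤ ((1 + 2 * δ) * N) * ((6 + 2000 * δ) * u) :=
    mul_le_mul (by linarith) (by linarith) (by positivity) (by positivity)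
  have b3 : mu * k ^ 3 ≤ (1 + 2 * δ) * (6 + 2000 * δ) * N := by
    refine le_of_mul_le_mul_right ?_ hu0
    linarith
  have b4 : (1 + 2 * δ) * (6 + 2000 * δ) ≤ 6 + mu * ε := by nlinarith
  have b5 : mu * k ^ 3 ≤ mu * ((6 / mu + ε) * N) := by
    have : mu * ((6 / mu + ε) * N) = (6 + mu * ε) * N := by field_simp
    rw [this]
    exact b3.trans (mul_le_mul_of_nonneg_right b4 hNr.le)
  exact le_of_mul_le_mul_left b5 hmu0

end Pool.Agent.Lib.MP_a8c702_nt.BS
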